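import Pool.Agent.Results.MP_885f98_gt.NotLocallyRigid

/-!
# Boundaries of quaternionic hyperbolic subspaces are not locally rigid in any codimension

For all `n ≥ 1` and `k ≥ 0` and every `ε > 0` there is a family `f_t`, `0 ≤ t < 1`, of
`(1 + ε)`-bi-Lipschitz embeddings of `X = ∂ℍH^n` into `Y = ∂ℍH^(n+1+k)` in the `ε`-neighbourhood of
the inclusion `f_0`, such that for `s ≠ t` no isometry of `ℍH^(n+1+k)` carries `f_s` to `f_t`.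
-/

set_option autoImplicit false

open scoped Quaternion NNReal
open Filter Topology

noncomputable section

namespace Pool.Agent.Results.MP_885f98_gt.AllCodimensions

open Pool.Agent.Results.MP_885f98_gt.NotLocallyRigid

/-- The inclusion of `∂ℍH^m` in `∂ℍH^(m+k)`: the last `k` coordinates are zero. -/
def up {m : ℕ} : (k : ℕ) → Bdry m → Bdry (m + k)
  | 0, ξ => ξ
  | k + 1, ξ => incl (up k ξ)

/-- The boundary extension of `g` sends `u ξ` to `v ξ` for all `ξ` in `X`. -/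
def Carries {n M : ℕ} (g : HBall M → HBall M) (u v : Bdry n → Bdry M) : Prop :=
  ∀ ξ : Bdry n, Tendsto (fun z : HBall M => (g z).1)
    (comap (fun z : HBall M => z.1) (𝓝 (u ξ).1)) (𝓝 (v ξ).1)

/-- `f` is a quasisymmetric embedding. -/
def IsQS {n M : ℕ} (f : Bdry n → Bdry M) : Prop :=
  Function.Injective f ∧ ∃ η : ℝ≥0 ≃ₜ ℝ≥0, ∀ (x a b : Bdry n) (t : ℝ≥0),
    vdist x a ≤ t * vdist x b → vdist (f x) (f a) ≤ η t * vdist (f x) (f b)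

/-- Local quasisymmetric rigidity of `∂ℍH^n` in `∂ℍH^(n+1+k)`. -/
def LocallyRigidIn (n k : ℕ) : Prop :=
  ∃ ε : ℝ, 0 < ε ∧ ∀ f : Bdry n → Bdry (n + 1 + k), IsQS f →
    (⨆ x, vdist (f x) (up k (incl x))) < ε → ∃ g, IsIsometry g ∧
      Carries g (fun x => up k (incl x)) f

theorem Q_one_incl {m : ℕ} (x y : Bdry m) : Q (incl x).1 (incl y).1 = Q x.1 y.1 := by
  unfold Q incl
  simp only
  rw [herm_snoc]
  simp

theorem Q_up {m : ℕ} (k : ℕ) (x y : Bdry m) : Q (up k x).1 (up k y).1 = Q x.1 y.1 := by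
  induction k with
  | zero => rfl
  | succ k ih =>
    have h := Q_one_incl (up k x) (up k y)
    rw [ih] at h
    exact h

theorem vdist_eq {m : ℕ} (x y : Bdry m) : vdist x y = √(Q x.1 y.1 / 2) := rfl

theorem vdist_up {m : ℕ} (k : ℕ) (x y : Bdry m) : vdist (up k x) (up k y) = vdist x y := by
  rw [vdist_eq, vdist_eq, Q_up]

/-- If the boundary extension of a distance preserving map carries `u` to `v` then `u` and `v`
have the same absolute cross ratios. -/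
theorem cross {n M : ℕ} (u v : Bdry n → Bdry M) (g : HBall M → HBall M)
    (hg : ∀ z w, hdist (g z) (g w) = hdist z w) (hf : Carries g u v) (ξ₁ ξ₂ ξ₃ ξ₄ : Bdry n) :
    Q (v ξ₁).1 (v ξ₂).1 * Q (v ξ₃).1 (v ξ₄).1 * (Q (u ξ₁).1 (u ξ₃).1 * Q (u ξ₂).1 (u ξ₄).1) =
      Q (u ξ₁).1 (u ξ₂).1 * Q (u ξ₃).1 (u ξ₄).1 *
        (Q (v ξ₁).1 (v ξ₃).1 * Q (v ξ₂).1 (v ξ₄).1) := by
  have hz : ∀ ξ : Bdry n, Tendsto (fun k => (radial (u ξ) k).1) atTop (𝓝 (u ξ).1) :=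
    fun ξ => radial_tendsto _
  have hgz : ∀ ξ : Bdry n, Tendsto (fun k => (g (radial (u ξ) k)).1) atTop (𝓝 (v ξ).1) := by
    intro ξ
    have h1 : Tendsto (fun k => radial (u ξ) k) atTop
        (comap (fun z : HBall M => z.1) (𝓝 (u ξ).1)) := by
      rw [tendsto_comap_iff]
      exact hz ξ
    exact (hf ξ).comp h1
  have hQ : ∀ (u v : ℕ → HBall M) (a b : Fin M → ℍ[ℝ]),
      Tendsto (fun k => (u k).1) atTop (𝓝 a) → Tendsto (fun k => (v k).1) atTop (𝓝 b) →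
      Tendsto (fun k => Q (u k).1 (v k).1) atTop (𝓝 (Q a b)) := by
    intro u v a b hu hv
    have h1 : Tendsto (fun p : (Fin M → ℍ[ℝ]) × (Fin M → ℍ[ℝ]) => Q p.1 p.2)
        (𝓝 (a, b)) (𝓝 (Q a b)) := continuous_Q.tendsto (a, b)
    have h2 : Tendsto (fun k => ((u k).1, (v k).1)) atTop (𝓝 (a, b)) := hu.prodMk_nhds hv
    have h3 := h1.comp h2
    simp only [Function.comp_def] at h3
    exact h3
  have hL := ((hQ _ _ _ _ (hgz ξ₁) (hgz ξ₂)).mul (hQ _ _ _ _ (hgz ξ₃) (hgz ξ₄))).mul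
    ((hQ _ _ _ _ (hz ξ₁) (hz ξ₃)).mul (hQ _ _ _ _ (hz ξ₂) (hz ξ₄)))
  have hR := ((hQ _ _ _ _ (hz ξ₁) (hz ξ₂)).mul (hQ _ _ _ _ (hz ξ₃) (hz ξ₄))).mul
    ((hQ _ _ _ _ (hgz ξ₁) (hgz ξ₃)).mul (hQ _ _ _ _ (hgz ξ₂) (hgz ξ₄)))
  refine tendsto_nhds_unique hL (hR.congr ?_)
  intro k
  exact (cross_ratio g hg _ _ _ _).symm

/-- Two-sided comparison with constants close to `1`. -/
theorem compare {n : ℕ} (i0 : Fin n) {δ : ℝ} (hδ : 0 ≤ δ) (hδ1 : δ ≤ 1 / 2) (x y : Bdry n) :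
    (1 - δ ^ 2) * Q x.1 y.1 ≤ Q (bmap i0 δ hδ hδ1 x).1 (bmap i0 δ hδ hδ1 y).1 ∧
      Q (bmap i0 δ hδ hδ1 x).1 (bmap i0 δ hδ hδ1 y).1 ≤ (1 + 2 * δ ^ 2) * Q x.1 y.1 := by
  obtain ⟨p0, p1⟩ := phi_bounds i0 hδ x.1 x.2.le
  obtain ⟨q0, q1⟩ := phi_bounds i0 hδ y.1 y.2.le
  obtain ⟨c0, c1, c2⟩ := coef_bounds p0 (p1.trans hδ1) q0 (q1.trans hδ1)
  have hl := phi_lip i0 (δ := δ) x.1 y.1 x.2.le y.2.le
  have hre : 0 ≤ (1 - herm x.1 y.1).re := by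
    have := re_one_sub_herm x.1 y.1 x.2.le y.2.le
    have := nsq_nonneg (fun i => x.1 i - y.1 i)
    linarith
  have hN := norm_nonneg (1 - herm x.1 y.1)
  unfold Q bmap
  simp only
  rw [one_sub_herm_graph]
  have h0 := Real.sqrt_nonneg (1 - phi i0 δ x.1 ^ 2)
  have h0' := Real.sqrt_nonneg (1 - phi i0 δ y.1 ^ 2)
  have h1 : √(1 - phi i0 δ x.1 ^ 2) ≤ 1 :=
    Real.sqrt_le_one.2 (by nlinarith [sq_nonneg (phi i0 δ x.1)])
  have h2 : √(1 - phi i0 δ y.1 ^ 2) ≤ 1 :=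
    Real.sqrt_le_one.2 (by nlinarith [sq_nonneg (phi i0 δ y.1)])
  have ha1 : √(1 - phi i0 δ x.1 ^ 2) * √(1 - phi i0 δ y.1 ^ 2) ≤ 1 := by nlinarith
  have h3 : √(1 - δ ^ 2) ≤ √(1 - phi i0 δ x.1 ^ 2) := Real.sqrt_le_sqrt (by nlinarith)
  have h4 : √(1 - δ ^ 2) ≤ √(1 - phi i0 δ y.1 ^ 2) := Real.sqrt_le_sqrt (by nlinarith)
  have h5 : √(1 - δ ^ 2) * √(1 - δ ^ 2) = 1 - δ ^ 2 := Real.mul_self_sqrt (by nlinarith)
  have h6 := Real.sqrt_nonneg (1 - δ ^ 2)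
  have ha2 : 1 - δ ^ 2 ≤ √(1 - phi i0 δ x.1 ^ 2) * √(1 - phi i0 δ y.1 ^ 2) := by
    rw [← h5]
    exact mul_le_mul h3 h4 h6 h0
  constructor
  · refine le_trans ?_ (norm_lower _ _ _ c0 (by linarith) hre)
    gcongr
  · refine (norm_upper _ _ _ c0 (by linarith)).trans ?_
    nlinarith

/-- Membership of the parameters. -/
theorem par {ε t : ℝ} (hε : 0 < ε) (ht : 0 ≤ t) (ht1 : t < 1) :
    0 ≤ min ε (1 / 2) * t ∧ min ε (1 / 2) * t ≤ 1 / 2 ∧ min ε (1 / 2) * t ≤ ε := by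
  have h1 : 0 < min ε (1 / 2) := lt_min hε (by norm_num)
  have h2 : min ε (1 / 2) ≤ ε := min_le_left _ _
  have h3 : min ε (1 / 2) ≤ 1 / 2 := min_le_right _ _
  refine ⟨by positivity, ?_, ?_⟩ <;> nlinarith

/-- The embeddings `f_t`. -/
def emb {n : ℕ} (hn : 1 ≤ n) (k : ℕ) {ε : ℝ} (hε : 0 < ε) (t : Set.Ico (0 : ℝ) 1) (x : Bdry n) :
    Bdry (n + 1 + k) :=
  up k (bmap ⟨0, hn⟩ (min ε (1 / 2) * t) (par hε t.2.1 t.2.2).1 (par hε t.2.1 t.2.2).2.1 x)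

theorem emb_lip {n : ℕ} (hn : 1 ≤ n) (k : ℕ) {ε : ℝ} (hε : 0 < ε) (t : Set.Ico (0 : ℝ) 1)
    (x y : Bdry n) : vdist x y ≤ (1 + ε) * vdist (emb hn k hε t x) (emb hn k hε t y) ∧
      vdist (emb hn k hε t x) (emb hn k hε t y) ≤ (1 + ε) * vdist x y := by
  obtain ⟨h0, h1, h2⟩ := par hε t.2.1 t.2.2
  unfold emb
  rw [vdist_up]
  obtain ⟨h3, h4⟩ := compare (⟨0, hn⟩ : Fin n) h0 h1 x y
  rw [vdist_eq, vdist_eq]
  have hQ0 : 0 ≤ Q x.1 y.1 := norm_nonneg _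
  set δ := min ε (1 / 2) * (t : ℝ) with hδ
  set Q' := Q (bmap (⟨0, hn⟩ : Fin n) δ h0 h1 x).1 (bmap (⟨0, hn⟩ : Fin n) δ h0 h1 y).1 with hQ'
  have hQ0' : 0 ≤ Q' := norm_nonneg _
  have h5 : δ ^ 2 ≤ ε / 2 := by nlinarith
  have h6 : δ ^ 2 ≤ 1 / 4 := by nlinarith
  have h7 : (1 + ε) = √((1 + ε) ^ 2) := (Real.sqrt_sq (by linarith)).symm
  constructor
  · rw [h7, ← Real.sqrt_mul (by positivity)]
    apply Real.sqrt_le_sqrt
    have h8 : 1 ≤ (1 + ε) ^ 2 * (1 - δ ^ 2) := by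
      have ha := mul_nonneg hε.le (show 0 ≤ 1 / 4 - δ ^ 2 by linarith)
      have hb := mul_nonneg (sq_nonneg ε) (show 0 ≤ 1 - δ ^ 2 by linarith)
      nlinarith
    have h9 : Q x.1 y.1 ≤ (1 + ε) ^ 2 * Q' := by
      calc Q x.1 y.1 ≤ ((1 + ε) ^ 2 * (1 - δ ^ 2)) * Q x.1 y.1 := le_mul_of_one_le_left hQ0 h8
        _ = (1 + ε) ^ 2 * ((1 - δ ^ 2) * Q x.1 y.1) := by ring
        _ ≤ (1 + ε) ^ 2 * Q' := mul_le_mul_of_nonneg_left h3 (by positivity)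
    linarith
  · rw [h7, ← Real.sqrt_mul (by positivity)]
    apply Real.sqrt_le_sqrt
    have h8 : 1 + 2 * δ ^ 2 ≤ (1 + ε) ^ 2 := by nlinarith
    have h9 : Q' ≤ (1 + ε) ^ 2 * Q x.1 y.1 :=
      h4.trans (mul_le_mul_of_nonneg_right h8 hQ0)
    linarith

theorem emb_close {n : ℕ} (hn : 1 ≤ n) (k : ℕ) {ε : ℝ} (hε : 0 < ε) (t : Set.Ico (0 : ℝ) 1)
    (x : Bdry n) : vdist (emb hn k hε t x) (up k (incl x)) ≤ ε := by
  unfold emb
  rw [vdist_up]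
  exact (bmap_close _ _ _ _ _).trans (par hε t.2.1 t.2.2).2.2

theorem emb_qs {n : ℕ} (hn : 1 ≤ n) (k : ℕ) {ε : ℝ} (hε : 0 < ε) (t : Set.Ico (0 : ℝ) 1) :
    IsQS (emb hn k hε t) := by
  constructor
  · intro x y hxy
    apply eq_of_vdist_eq_zero
    have h1 := (emb_lip hn k hε t x y).1
    rw [hxy, vdist_self, mul_zero] at h1
    have h3 : 0 ≤ vdist x y := Real.sqrt_nonneg _
    linarith
  · have hpos : (0 : ℝ) < (1 + ε) * (1 + ε) := by positivity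
    obtain ⟨c, hc⟩ : ∃ c : ℝ≥0, (c : ℝ) = (1 + ε) * (1 + ε) :=
      ⟨⟨(1 + ε) * (1 + ε), hpos.le⟩, rfl⟩
    refine ⟨Homeomorph.mulLeft₀ c (by
      intro h
      rw [h, NNReal.coe_zero] at hc
      exact hpos.ne hc), ?_⟩
    intro x a b s h
    have h1 := (emb_lip hn k hε t x a).2
    have h2 := (emb_lip hn k hε t x b).1
    simp only [Homeomorph.coe_mulLeft₀, NNReal.coe_mul]
    rw [hc]
    have hs : (0 : ℝ) ≤ s := s.2
    calc vdist (emb hn k hε t x) (emb hn k hε t a) ≤ (1 + ε) * vdist x a := h1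
      _ ≤ (1 + ε) * (s * vdist x b) := by gcongr
      _ ≤ (1 + ε) * (s * ((1 + ε) * vdist (emb hn k hε t x) (emb hn k hε t b))) := by gcongr
      _ = _ := by ring

theorem emb_zero {n : ℕ} (hn : 1 ≤ n) (k : ℕ) {ε : ℝ} (hε : 0 < ε) (t : Set.Ico (0 : ℝ) 1)
    (ht : (t : ℝ) = 0) (x : Bdry n) : emb hn k hε t x = up k (incl x) := by
  unfold emb
  congr 1
  apply Subtype.ext
  unfold bmap incl
  simp only
  have h : phi (⟨0, hn⟩ : Fin n) (min ε (1 / 2) * (t : ℝ)) x.1 = 0 := by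
    unfold phi
    rw [ht]
    simp
  rw [h]
  simp

/-- Different embeddings of the family are not related by isometries. -/
theorem emb_ne {n : ℕ} (hn : 1 ≤ n) (k : ℕ) {ε : ℝ} (hε : 0 < ε) (s t : Set.Ico (0 : ℝ) 1)
    (hst : s ≠ t) (g : HBall (n + 1 + k) → HBall (n + 1 + k)) (hg : IsIsometry g) :
    ¬ Carries g (emb hn k hε s) (emb hn k hε t) := by
  intro h
  obtain ⟨I, i1, i2, i3, i4⟩ : ∃ I : ℍ[ℝ], I.re = 0 ∧ I.imI = 1 ∧ I.imJ = 0 ∧ I.imK = 0 :=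
    ⟨⟨0, 1, 0, 0⟩, rfl, rfl, rfl, rfl⟩
  have nI : ‖I‖ = 1 := by
    have : ‖I‖ ^ 2 = 1 := by rw [norm_sq_q]; simp [i1, i2, i3, i4]
    nlinarith [norm_nonneg I]
  have nI' : ‖-I‖ = 1 := by rw [norm_neg, nI]
  have n1 : ‖(1 : ℍ[ℝ])‖ = 1 := norm_one
  have n1' : ‖(-1 : ℍ[ℝ])‖ = 1 := by rw [norm_neg, norm_one]
  have rI : I.re ≤ 0 := i1.le
  have rI' : (-I).re ≤ 0 := by simp [i1]
  have r1' : (-1 : ℍ[ℝ]).re ≤ 0 := by simp
  set i0 : Fin n := ⟨0, hn⟩ with hi0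
  have H := cross _ _ g hg.2 h (pt i0 (-I) nI') (pt i0 (-1) n1') (pt i0 I nI) (pt i0 1 n1)
  obtain ⟨s0, s1, -⟩ := par hε s.2.1 s.2.2
  obtain ⟨t0, t1, -⟩ := par hε t.2.1 t.2.2
  unfold emb at H
  simp only [Q_up] at H
  set δ := min ε (1 / 2) * (s : ℝ) with hδ
  set δ' := min ε (1 / 2) * (t : ℝ) with hδ'
  rw [Q_bmap_zero i0 δ s0 s1 _ _ nI' n1' rI' r1',
    Q_bmap_zero i0 δ s0 s1 _ _ nI' nI rI' rI, Q_bmap_one i0 δ s0 s1 _ nI n1 rI,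
    Q_bmap_one i0 δ s0 s1 _ n1' n1 r1', Q_bmap_zero i0 δ' t0 t1 _ _ nI' n1' rI' r1',
    Q_bmap_zero i0 δ' t0 t1 _ _ nI' nI rI' rI, Q_bmap_one i0 δ' t0 t1 _ nI n1 rI,
    Q_bmap_one i0 δ' t0 t1 _ n1' n1 r1'] at H
  have hδ2 : δ ^ 2 ≤ 1 / 4 := by nlinarith
  have hδ2' : δ' ^ 2 ≤ 1 / 4 := by nlinarith
  have ha : √(1 - δ ^ 2) ^ 2 = 1 - δ ^ 2 := Real.sq_sqrt (by linarith)
  have ha' : √(1 - δ' ^ 2) ^ 2 = 1 - δ' ^ 2 := Real.sq_sqrt (by linarith)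
  have ha0 := Real.sqrt_nonneg (1 - δ ^ 2)
  have ha0' := Real.sqrt_nonneg (1 - δ' ^ 2)
  set a := √(1 - δ ^ 2)
  set a' := √(1 - δ' ^ 2)
  have e12 : ‖1 - -I * star (-1)‖ ^ 2 = 2 := by
    rw [norm_sq_q]; simp [i1, i2, i3, i4]; norm_num
  have e13 : ‖1 - -I * star I‖ ^ 2 = 4 := by
    rw [norm_sq_q]; simp [i1, i2, i3, i4]; norm_num
  have f34 : ∀ a : ℝ, ‖((1 - a : ℝ) : ℍ[ℝ]) + a • (1 - I)‖ ^ 2 = 1 + a ^ 2 := by
    intro a
    rw [norm_sq_q]; simp [i1, i2, i3, i4]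
  have f24 : ∀ a : ℝ, ‖((1 - a : ℝ) : ℍ[ℝ]) + a • (1 - -1)‖ ^ 2 = (1 + a) ^ 2 := by
    intro a
    rw [norm_sq_q]; simp
  have H2 := congrArg (fun t : ℝ => t ^ 2) H
  simp only [mul_pow] at H2
  rw [e12, e13, f34, f34, f24, f24] at H2
  have h3 : (a - a') * (1 - a * a') = 0 := by nlinarith
  have h4 : a = a' := by
    rcases mul_eq_zero.1 h3 with h5 | h5
    · linarith
    · have hle : a ≤ 1 := by nlinarith
      have hle' : a' ≤ 1 := by nlinarith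
      nlinarith
  rw [h4, ha'] at ha
  have h5 : δ = δ' := by nlinarith
  apply hst
  apply Subtype.ext
  have h6 : 0 < min ε (1 / 2) := lt_min hε (by norm_num)
  exact mul_left_cancel₀ h6.ne' h5

/-- (1) For all `n ≥ 1`, all `k` and every `ε > 0` there are maps `f_t : ∂ℍH^n → ∂ℍH^(n+1+k)`,
`0 ≤ t < 1`, each of them `(1 + ε)`-bi-Lipschitz, quasisymmetric and within distance `ε` of the
inclusion, which is `f_0`, such that for `s ≠ t` no isometry of `ℍH^(n+1+k)` carries `f_s` to `f_t`.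
(2) Hence `∂ℍH^n` is not locally rigid in `∂ℍH^(n+1+k)`. (3) In particular the question of the
problem (`n ≥ 2`, `k = 0`) has a negative answer. -/
theorem result :
    (∀ n : ℕ, 1 ≤ n → ∀ (k : ℕ) (ε : ℝ), 0 < ε →
      ∃ f : Set.Ico (0 : ℝ) 1 → Bdry n → Bdry (n + 1 + k),
        (∀ t : Set.Ico (0 : ℝ) 1, (t : ℝ) = 0 → f t = fun x => up k (incl x)) ∧
        (∀ t x y, vdist x y ≤ (1 + ε) * vdist (f t x) (f t y) ∧
          vdist (f t x) (f t y) ≤ (1 + ε) * vdist x y) ∧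
        (∀ t, IsQS (f t)) ∧
        (∀ t x, vdist (f t x) (up k (incl x)) ≤ ε) ∧
        ∀ s t, s ≠ t → ∀ g : HBall (n + 1 + k) → HBall (n + 1 + k), IsIsometry g →
          ¬ Carries g (f s) (f t)) ∧
    (∀ n k : ℕ, 1 ≤ n → ¬ LocallyRigidIn n k) ∧
    ∀ n : ℕ, 2 ≤ n → ¬ LocallyRigid n := by
  refine ⟨?_, ?_, NotLocallyRigid.result⟩
  · intro n hn k ε hε
    exact ⟨emb hn k hε, fun t ht => funext fun x => emb_zero hn k hε t ht x,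
      fun t x y => emb_lip hn k hε t x y, fun t => emb_qs hn k hε t,
      fun t x => emb_close hn k hε t x, fun s t hst g hg => emb_ne hn k hε s t hst g hg⟩
  · rintro n k hn ⟨ε, hε, H⟩
    have hε2 : 0 < ε / 2 := by linarith
    set t0 : Set.Ico (0 : ℝ) 1 := ⟨0, le_rfl, one_pos⟩ with ht0
    set t1 : Set.Ico (0 : ℝ) 1 := ⟨1 / 2, by norm_num, by norm_num⟩ with ht1
    obtain ⟨g, hg, hgf⟩ := H (emb hn k hε2 t1) (emb_qs hn k hε2 t1) (by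
      have h1 : (⨆ x : Bdry n, vdist (emb hn k hε2 t1 x) (up k (incl x))) ≤ ε / 2 :=
        Real.iSup_le (fun x => emb_close hn k hε2 t1 x) hε2.le
      linarith)
    have h2 : (fun x : Bdry n => up k (incl x)) = emb hn k hε2 t0 :=
      funext fun x => (emb_zero hn k hε2 t0 rfl x).symm
    rw [h2] at hgf
    refine emb_ne hn k hε2 t0 t1 ?_ g hg hgf
    intro h
    have h3 : (0 : ℝ) = 1 / 2 := congrArg Subtype.val h
    norm_num at h3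

end Pool.Agent.Results.MP_885f98_gt.AllCodimensions
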